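import Pool.Agent.Helper14.LE.Stmts

/-!
# MP_08fe4e_an, modules E4, E5, E6: upper bounds of the iterated kernel of `D₀`
-/

open MeasureTheory Set Filter Topology InnerProductSpace Laplacian

noncomputable section

namespace LEP

namespace E456

theorem mp_ge (i : Fin 2) : 2 ≤ mp i := by
  fin_cases i <;> norm_num [mp, mm]

theorem mp_le (i : Fin 2) : mp i ≤ 9 := by
  fin_cases i <;> norm_num [mp, mm]

theorem arm_inj {z : ℂ} {i j : Fin 2} (hi : z ∈ Arm i) (hj : z ∈ Arm j) : i = j := by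
  have key : be 0 < al 1 := by
    simp only [be, al, mm, th0, Matrix.cons_val_zero, Matrix.cons_val_one]
    push_cast
    linarith [Real.pi_pos]
  obtain ⟨-, h1, h2⟩ := hi
  obtain ⟨-, h3, h4⟩ := hj
  fin_cases i <;> fin_cases j
  · rfl
  · exfalso
    simp only [Fin.zero_eta, Fin.mk_one] at *
    linarith
  · exfalso
    simp only [Fin.zero_eta, Fin.mk_one] at *
    linarith
  · rfl

theorem meas_arm (i : Fin 2) : MeasurableSet (Arm i) := by
  have h : Arm i = {z : ℂ | z ≠ 0} ∩ ({z | al i < Complex.arg z} ∩ {z | Complex.arg z < be i}) := by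
    ext z
    simp [Arm]
  rw [h]
  refine MeasurableSet.inter (measurableSet_singleton (0 : ℂ)).compl ?_
  exact (measurableSet_lt measurable_const Complex.measurable_arg).inter
    (measurableSet_lt Complex.measurable_arg measurable_const)

/-- The integrable majorant. -/
def w4 (z : ℂ) : ℝ := (1 + ‖z‖) ^ (-4 : ℝ)

theorem w4_int : Integrable w4 := by
  refine integrable_one_add_norm (E := ℂ) (r := 4) ?_
  rw [Complex.finrank_real_complex]
  norm_num

theorem w4_nonneg (z : ℂ) : 0 ≤ w4 z := by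
  unfold w4
  positivity

theorem bb_nonneg (z : ℂ) : 0 ≤ bb z := by
  unfold bb
  split_ifs <;> positivity

theorem bb_small {z : ℂ} (h : ‖z‖ < 8) : bb z = 1 := by
  unfold bb
  rw [if_pos h]

theorem bb_arm {z : ℂ} {i : Fin 2} (hz : z ∈ Arm i) (h : 8 ≤ ‖z‖) : bb z = ‖z‖ ^ (-mp i) := by
  unfold bb
  rw [if_neg (not_lt.2 h)]
  fin_cases i
  · simp only [Fin.zero_eta] at *
    rw [if_pos hz]
  · simp only [Fin.mk_one] at *
    have h0 : z ∉ Arm 0 := fun h0 => absurd (arm_inj h0 hz) (by decide)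
    rw [if_neg h0, if_pos hz]

theorem bb_le_arm {z : ℂ} {i : Fin 2} (hz : z ∈ Arm i) : bb z ≤ 8 ^ 9 * ‖z‖ ^ (-mp i) := by
  have hz0 : 0 < ‖z‖ := norm_pos_iff.2 hz.1
  rcases lt_or_ge ‖z‖ 8 with h | h
  · rw [bb_small h]
    have h1 : ‖z‖ ^ (mp i) ≤ 8 ^ 9 := by
      calc ‖z‖ ^ (mp i) ≤ (8 : ℝ) ^ (mp i) :=
            Real.rpow_le_rpow hz0.le h.le (by linarith [mp_ge i])
        _ ≤ (8 : ℝ) ^ (9 : ℝ) := Real.rpow_le_rpow_of_exponent_le (by norm_num) (mp_le i)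
        _ = 8 ^ 9 := by norm_num
    rw [Real.rpow_neg hz0.le]
    have h2 : 0 < ‖z‖ ^ (mp i) := Real.rpow_pos_of_pos hz0 _
    rw [← div_eq_mul_inv, le_div_iff₀ h2]
    linarith
  · rw [bb_arm hz h]
    have h2 : 0 < ‖z‖ ^ (-mp i) := Real.rpow_pos_of_pos hz0 _
    nlinarith

theorem bb_sq {z : ℂ} (h : ‖z‖ < 8 ∨ z ∈ Arm 0 ∨ z ∈ Arm 1) : bb z * bb z ≤ 6561 * w4 z := by
  have h1 : 0 < 1 + ‖z‖ := by positivity
  have key : bb z ≤ 81 * (1 + ‖z‖) ^ (-2 : ℝ) := by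
    rcases lt_or_ge ‖z‖ 8 with h8 | h8
    · rw [bb_small h8, Real.rpow_neg h1.le, ← div_eq_mul_inv, le_div_iff₀ (Real.rpow_pos_of_pos h1 _)]
      have : (1 + ‖z‖) ^ (2 : ℝ) = (1 + ‖z‖) ^ 2 := by norm_cast
      rw [this]
      nlinarith [norm_nonneg z]
    · obtain ⟨i, hi⟩ : ∃ i, z ∈ Arm i := by
        rcases h with h | h | h
        · exact absurd h (not_lt.2 h8)
        · exact ⟨0, h⟩
        · exact ⟨1, h⟩
      rw [bb_arm hi h8]
      have hz0 : 0 < ‖z‖ := by linarith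
      calc ‖z‖ ^ (-mp i) ≤ ‖z‖ ^ (-2 : ℝ) :=
            Real.rpow_le_rpow_of_exponent_le (by linarith) (by linarith [mp_ge i])
        _ ≤ 81 * (1 + ‖z‖) ^ (-2 : ℝ) := by
            rw [Real.rpow_neg h1.le, Real.rpow_neg hz0.le, ← div_eq_mul_inv,
              le_div_iff₀ (Real.rpow_pos_of_pos h1 _), ← div_eq_inv_mul,
              div_le_iff₀ (Real.rpow_pos_of_pos hz0 _)]
            have e1 : (1 + ‖z‖) ^ (2 : ℝ) = (1 + ‖z‖) ^ 2 := by norm_cast
            have e2 : ‖z‖ ^ (2 : ℝ) = ‖z‖ ^ 2 := by norm_cast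
            rw [e1, e2]
            nlinarith
  have h4 : w4 z = (1 + ‖z‖) ^ (-2 : ℝ) * (1 + ‖z‖) ^ (-2 : ℝ) := by
    unfold w4
    rw [← Real.rpow_add h1]
    norm_num
  rw [h4]
  have h5 : 0 ≤ (1 + ‖z‖) ^ (-2 : ℝ) := (Real.rpow_pos_of_pos h1 _).le
  calc bb z * bb z ≤ (81 * (1 + ‖z‖) ^ (-2 : ℝ)) * (81 * (1 + ‖z‖) ^ (-2 : ℝ)) :=
        mul_le_mul key key (bb_nonneg z) (by positivity)
    _ = 6561 * ((1 + ‖z‖) ^ (-2 : ℝ) * (1 + ‖z‖) ^ (-2 : ℝ)) := by ring

theorem ind_int {A : Set ℂ} (hA : MeasurableSet A) {f : ℂ → ℝ} (hf : IntegrableOn f A)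
    (h0 : ∀ z ∈ A, 0 ≤ f z) (D : Set ℂ) :
    IntegrableOn (A.indicator f) D ∧ ∫ z in D, A.indicator f z ≤ ∫ z in A, f z := by
  have h1 : Integrable (A.indicator f) := (integrable_indicator_iff hA).2 hf
  refine ⟨h1.integrableOn, ?_⟩
  rw [← integral_indicator hA]
  refine setIntegral_le_integral h1 (ae_of_all _ fun z => ?_)
  exact indicator_nonneg h0 z

theorem w4_set (D : Set ℂ) : ∫ z in D, w4 z ≤ ∫ z, w4 z :=
  setIntegral_le_integral w4_int (ae_of_all _ w4_nonneg)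

theorem mono2 {D : Set ℂ} (hD : MeasurableSet D) {F B : ℂ → ℝ} (x y : ℂ) (hF : IntegrableOn F D)
    (hB : IntegrableOn B D) (h : ∀ z ∈ D, z ≠ x → z ≠ y → F z ≤ B z) :
    ∫ z in D, F z ≤ ∫ z in D, B z := by
  refine integral_mono_ae hF hB ?_
  have h1 : ∀ᵐ z ∂(volume.restrict D), z ∈ D := ae_restrict_mem hD
  have h2 : ∀ᵐ z ∂(volume.restrict D), z ≠ x :=
    ae_restrict_of_ae (measure_mono_null (fun z hz => by simpa using hz)
      (measure_singleton x : volume {x} = 0))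
  have h3 : ∀ᵐ z ∂(volume.restrict D), z ≠ y :=
    ae_restrict_of_ae (measure_mono_null (fun z hz => by simpa using hz)
      (measure_singleton y : volume {y} = 0))
  filter_upwards [h1, h2, h3] with z a b c
  exact h z a b c

theorem lin4 {D : Set ℂ} {f g h k : ℂ → ℝ} (hf : IntegrableOn f D) (hg : IntegrableOn g D)
    (hh : IntegrableOn h D) (hk : IntegrableOn k D) (M a b c d : ℝ) :
    IntegrableOn (fun z => M * (a * f z + b * g z + c * h z + d * k z)) D ∧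
    ∫ z in D, M * (a * f z + b * g z + c * h z + d * k z) =
      M * (a * (∫ z in D, f z) + b * (∫ z in D, g z) + c * (∫ z in D, h z) +
        d * ∫ z in D, k z) := by
  have h1 : IntegrableOn (fun z => a * f z) D := hf.const_mul a
  have h2 : IntegrableOn (fun z => b * g z) D := hg.const_mul b
  have h3 : IntegrableOn (fun z => c * h z) D := hh.const_mul c
  have h4 : IntegrableOn (fun z => d * k z) D := hk.const_mul d
  have h12 : IntegrableOn (fun z => a * f z + b * g z) D := h1.add h2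
  have h123 : IntegrableOn (fun z => a * f z + b * g z + c * h z) D := h12.add h3
  have h1234 : IntegrableOn (fun z => a * f z + b * g z + c * h z + d * k z) D := h123.add h4
  refine ⟨h1234.const_mul M, ?_⟩
  rw [integral_const_mul]
  congr 1
  rw [show (∫ z in D, a * f z + b * g z + c * h z + d * k z) =
      (∫ z in D, a * f z + b * g z + c * h z) + ∫ z in D, d * k z from integral_add h123 h4,
    show (∫ z in D, a * f z + b * g z + c * h z) =
      (∫ z in D, a * f z + b * g z) + ∫ z in D, c * h z from integral_add h12 h3,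
    show (∫ z in D, a * f z + b * g z) =
      (∫ z in D, a * f z) + ∫ z in D, b * g z from integral_add h1 h2]
  rw [integral_const_mul, integral_const_mul, integral_const_mul, integral_const_mul]

/-- The facts on `D₀` used below. -/
structure Ctx (Rv : Fin 2 → ℝ) (C : ℝ) : Prop where
  one : 1 ≤ C
  md : MeasurableSet (Ddom (R0 Rv))
  symm : ∀ x ∈ Ddom (R0 Rv), ∀ y ∈ Ddom (R0 Rv), gD (Ddom (R0 Rv)) x y = gD (Ddom (R0 Rv)) y x
  nn : ∀ x y, 0 ≤ gD (Ddom (R0 Rv)) x y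
  cov : ∀ z ∈ Ddom (R0 Rv), ‖z‖ < 8 ∨ z ∈ Arm 0 ∨ z ∈ Arm 1
  cov1 : ∀ z ∈ Ddom (R0 Rv), ‖z‖ ≤ 1 ∨ z ∈ Arm 0 ∨ z ∈ Arm 1
  u1 : ∀ i, ∀ x ∈ Ddom (R0 Rv), ∀ y ∈ Ddom (R0 Rv), x ∈ Arm i → 4 ≤ ‖x‖ → (y ∉ Arm i ∨ ‖y‖ ≤ 2) →
    gD (Ddom (R0 Rv)) x y ≤ C * ‖x‖ ^ (-mp i) * bb y
  u2 : ∀ i, ∀ x ∈ Ddom (R0 Rv), ∀ y ∈ Ddom (R0 Rv), x ∈ Arm i → y ∈ Arm i → x ≠ y → 4 ≤ ‖x‖ →
    gD (Ddom (R0 Rv)) x y ≤ GA i x y + C * ‖x‖ ^ (-mp i) * bb y
  int : ∀ x ∈ Ddom (R0 Rv), ∀ y ∈ Ddom (R0 Rv),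
    IntegrableOn (fun z => gD (Ddom (R0 Rv)) x z * gD (Ddom (R0 Rv)) z y) (Ddom (R0 Rv))

theorem exists_ctx (hu1 : ST_U1) (hu2 : ST_U2) (hs0 : ST_SEC0) (hgeo : ST_GEO) (hgf : ST_GF2)
    (ht2 : ST_T2) : ∃ C : ℝ, 1 ≤ C ∧ ∀ Rv : Fin 2 → ℝ, (∀ i, 16 ≤ Rv i) → Ctx Rv C := by
  obtain ⟨C1, hC1, h1⟩ := hu1
  obtain ⟨C2, hC2, h2⟩ := hu2
  refine ⟨1 + C1 + C2, by linarith, fun Rv hR => ?_⟩
  have hR1 : ∀ i, 1 ≤ Rv i := fun i => by linarith [hR i]
  obtain ⟨hP, -, -, -, -, -, hcov, -⟩ := hgeo.2 Rv hR1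
  obtain ⟨-, ho, -⟩ := hgeo.1 _ hP
  have hG := hgf _ hP
  have harm : ∀ i, ∀ z ∈ Ddom (R0 Rv), z ∈ Arm i → z ∈ ArmR i (Rv i) := by
    intro i z hz hzi
    rcases lt_or_ge ‖z‖ 1 with h | h
    · exact ⟨hzi, by linarith [hR1 i]⟩
    · obtain ⟨j, hj⟩ := hcov z hz h
      have : i = j := arm_inj hzi hj.1
      rw [this]
      exact hj
  have hcov1 : ∀ z ∈ Ddom (R0 Rv), ‖z‖ ≤ 1 ∨ z ∈ Arm 0 ∨ z ∈ Arm 1 := by
    intro z hz
    rcases le_or_gt ‖z‖ 1 with h | h
    · exact Or.inl h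
    · obtain ⟨j, hj⟩ := hcov z hz h.le
      fin_cases j
      · exact Or.inr (Or.inl hj.1)
      · exact Or.inr (Or.inr hj.1)
  refine ⟨by linarith, ho.measurableSet, hG.symm, hG.nonneg, ?_, hcov1, ?_, ?_, (ht2 _ hP).2.2.1⟩
  · intro z hz
    rcases hcov1 z hz with h | h
    · exact Or.inl (by linarith)
    · exact Or.inr h
  · intro i x hx y hy hxi h4 hyi
    refine (h1 Rv hR i x hx y hy hxi h4 hyi).trans ?_
    have hb := bb_nonneg y
    have hx0 : 0 ≤ ‖x‖ ^ (-mp i) := by positivity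
    refine mul_le_mul_of_nonneg_right (mul_le_mul_of_nonneg_right (by linarith) hx0) hb
  · intro i x hx y hy hxi hyi hne h4
    have hx' := harm i x hx hxi
    have hy' := harm i y hy hyi
    refine ((h2 Rv hR i x hx' y hy' hne).2 h4).trans ?_
    have hb := bb_nonneg y
    have hx0 : 0 ≤ ‖x‖ ^ (-mp i) := by positivity
    have hga := (hs0.2.2.2.2.2.1 i (Rv i) (by linarith [hR1 i]) x hx' y hy' hne).2
    have := mul_le_mul_of_nonneg_right (mul_le_mul_of_nonneg_right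
      (show C2 ≤ 1 + C1 + C2 by linarith) hx0) hb
    linarith

/-- the transfer to subdomains -/
theorem transfer (htm : ST_TM) (hgeo : ST_GEO) {Rv : Fin 2 → ℝ} {R : ℝ → ℝ} (h : Sub Rv R) :
    Ddom R ⊆ Ddom (R0 Rv) ∧ ∀ x ∈ Ddom R, ∀ y ∈ Ddom R,
      Gam (Ddom R) x y ≤ Gam (Ddom (R0 Rv)) x y := by
  obtain ⟨hge, hP, hle⟩ := h
  have hR1 : ∀ i, 1 ≤ Rv i := fun i => by linarith [hge i]
  refine ⟨?_, htm.1 R _ hP (hgeo.2 Rv hR1).1 hle⟩
  rintro z ⟨hz, hq⟩
  exact ⟨lt_of_lt_of_le hz (hle _), hq⟩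

theorem st_E4 (hu1 : ST_U1) (hu2 : ST_U2) (hs0 : ST_SEC0) (hs2 : ST_S2) (hgeo : ST_GEO)
    (hgf : ST_GF2) (ht2 : ST_T2) (htm : ST_TM) : ST_E4 := by
  obtain ⟨C, hC, hctx⟩ := exists_ctx hu1 hu2 hs0 hgeo hgf ht2
  obtain ⟨⟨K, hK, hS⟩, -⟩ := hs2
  set J : ℝ := ∫ z, w4 z with hJ
  have hJ0 : 0 ≤ J := integral_nonneg w4_nonneg
  refine ⟨8 ^ 9 * C * C * (K + 6561 * J + 1), by positivity, ?_⟩
  intro Rv R hsub x1 hx1 x2 hx2 ha1 ha2 h41 h42
  obtain ⟨hDD, hle⟩ := transfer htm hgeo hsub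
  refine (hle x1 hx1 x2 hx2).trans ?_
  have hc := hctx Rv hsub.1
  have hx1' := hDD hx1
  have hx2' := hDD hx2
  set D := Ddom (R0 Rv) with hD
  set p1 : ℝ := ‖x1‖ ^ (-mp 0) with hp1
  set p2 : ℝ := ‖x2‖ ^ (-mp 1) with hp2
  have hp1p : 0 < p1 := Real.rpow_pos_of_pos (by linarith) _
  have hp2p : 0 < p2 := Real.rpow_pos_of_pos (by linarith) _
  obtain ⟨hS1, hS1'⟩ := hS 0 x1 ha1
  obtain ⟨hS2, hS2'⟩ := hS 1 x2 ha2
  have hnn1 : ∀ z ∈ Arm 0, 0 ≤ GA 0 x1 z * ‖z‖ ^ (-mp 0) := fun z hz =>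
    mul_nonneg (hs0.2.2.1 0 x1 ha1 z hz).1 (by positivity)
  have hnn2 : ∀ z ∈ Arm 1, 0 ≤ GA 1 x2 z * ‖z‖ ^ (-mp 1) := fun z hz =>
    mul_nonneg (hs0.2.2.1 1 x2 ha2 z hz).1 (by positivity)
  obtain ⟨hI1, hI1'⟩ := ind_int (meas_arm 0) hS1 hnn1 D
  obtain ⟨hI2, hI2'⟩ := ind_int (meas_arm 1) hS2 hnn2 D
  set A1 := (Arm 0).indicator (fun z => GA 0 x1 z * ‖z‖ ^ (-mp 0)) with hA1
  set A2 := (Arm 1).indicator (fun z => GA 1 x2 z * ‖z‖ ^ (-mp 1)) with hA2
  have hA1n : ∀ z, 0 ≤ A1 z := fun z => indicator_nonneg hnn1 z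
  have hA2n : ∀ z, 0 ≤ A2 z := fun z => indicator_nonneg hnn2 z
  have hB : IntegrableOn (fun z => 8 ^ 9 * C * C * (p2 * A1 z + p1 * A2 z + p1 * p2 * (6561 * w4 z))) D :=
    (((hI1.const_mul p2).add (hI2.const_mul p1)).add
      ((w4_int.integrableOn.const_mul 6561).const_mul (p1 * p2))).const_mul _
  have hmain : Gam D x1 x2 ≤
      ∫ z in D, 8 ^ 9 * C * C * (p2 * A1 z + p1 * A2 z + p1 * p2 * (6561 * w4 z)) := by
    refine mono2 hc.md x1 x2 (hc.int x1 hx1' x2 hx2') hB ?_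
    intro z hz hz1 hz2
    have hb0 := bb_nonneg z
    have hbs := bb_sq (hc.cov z hz)
    have hw := w4_nonneg z
    have hg2 : gD D z x2 = gD D x2 z := hc.symm z hz x2 hx2'
    rw [hg2]
    have hC0 : 0 ≤ C := by linarith
    have hCC : C ≤ C * C := by nlinarith
    by_cases hz0 : z ∈ Arm 0
    · have e1 : A1 z = GA 0 x1 z * ‖z‖ ^ (-mp 0) := indicator_of_mem hz0 _
      have e2 : A2 z = 0 := indicator_of_notMem (fun h => absurd (arm_inj hz0 h) (by decide)) _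
      have b1 := hc.u2 0 x1 hx1' z hz ha1 hz0 (Ne.symm hz1) h41
      have b2 := hc.u1 1 x2 hx2' z hz ha2 h42
        (Or.inl fun h => absurd (arm_inj hz0 h) (by decide))
      have hga := (hs0.2.2.1 0 x1 ha1 z hz0).1
      have b3 := bb_le_arm hz0
      rw [e1, e2]
      calc gD D x1 z * gD D x2 z
          ≤ (GA 0 x1 z + C * p1 * bb z) * (C * p2 * bb z) :=
            mul_le_mul b1 b2 (hc.nn _ _) (by positivity)
        _ = C * p2 * (GA 0 x1 z * bb z) + C * C * (p1 * p2) * (bb z * bb z) := by ring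
        _ ≤ C * p2 * (GA 0 x1 z * (8 ^ 9 * ‖z‖ ^ (-mp 0))) + C * C * (p1 * p2) * (6561 * w4 z) := by
            gcongr
        _ = 8 ^ 9 * C * (p2 * (GA 0 x1 z * ‖z‖ ^ (-mp 0))) + C * C * (p1 * p2 * (6561 * w4 z)) := by
            ring
        _ ≤ 8 ^ 9 * (C * C) * (p2 * (GA 0 x1 z * ‖z‖ ^ (-mp 0))) +
              8 ^ 9 * (C * C) * (p1 * p2 * (6561 * w4 z)) := by
            have t1 : 0 ≤ p2 * (GA 0 x1 z * ‖z‖ ^ (-mp 0)) := by positivity
            have t2 : 0 ≤ p1 * p2 * (6561 * w4 z) := by positivity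
            have t3 : 8 ^ 9 * C ≤ 8 ^ 9 * (C * C) := by linarith
            have t4 : C * C ≤ 8 ^ 9 * (C * C) := by nlinarith
            exact add_le_add (mul_le_mul_of_nonneg_right t3 t1) (mul_le_mul_of_nonneg_right t4 t2)
        _ = _ := by ring
    · have e1 : A1 z = 0 := indicator_of_notMem hz0 _
      by_cases hz1' : z ∈ Arm 1
      · have e2 : A2 z = GA 1 x2 z * ‖z‖ ^ (-mp 1) := indicator_of_mem hz1' _
        have b1 := hc.u2 1 x2 hx2' z hz ha2 hz1' (Ne.symm hz2) h42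
        have b2 := hc.u1 0 x1 hx1' z hz ha1 h41 (Or.inl hz0)
        have hga := (hs0.2.2.1 1 x2 ha2 z hz1').1
        have b3 := bb_le_arm hz1'
        rw [e1, e2]
        calc gD D x1 z * gD D x2 z
            ≤ (C * p1 * bb z) * (GA 1 x2 z + C * p2 * bb z) :=
              mul_le_mul b2 b1 (hc.nn _ _) (by positivity)
          _ = C * p1 * (GA 1 x2 z * bb z) + C * C * (p1 * p2) * (bb z * bb z) := by ring
          _ ≤ C * p1 * (GA 1 x2 z * (8 ^ 9 * ‖z‖ ^ (-mp 1))) + C * C * (p1 * p2) * (6561 * w4 z) := by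
              gcongr
          _ = 8 ^ 9 * C * (p1 * (GA 1 x2 z * ‖z‖ ^ (-mp 1))) + C * C * (p1 * p2 * (6561 * w4 z)) := by
              ring
          _ ≤ 8 ^ 9 * (C * C) * (p1 * (GA 1 x2 z * ‖z‖ ^ (-mp 1))) +
                8 ^ 9 * (C * C) * (p1 * p2 * (6561 * w4 z)) := by
              have t1 : 0 ≤ p1 * (GA 1 x2 z * ‖z‖ ^ (-mp 1)) := by positivity
              have t2 : 0 ≤ p1 * p2 * (6561 * w4 z) := by positivity
              have t3 : 8 ^ 9 * C ≤ 8 ^ 9 * (C * C) := by linarith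
              have t4 : C * C ≤ 8 ^ 9 * (C * C) := by nlinarith
              exact add_le_add (mul_le_mul_of_nonneg_right t3 t1) (mul_le_mul_of_nonneg_right t4 t2)
          _ = _ := by ring
      · have e2 : A2 z = 0 := indicator_of_notMem hz1' _
        have b1 := hc.u1 0 x1 hx1' z hz ha1 h41 (Or.inl hz0)
        have b2 := hc.u1 1 x2 hx2' z hz ha2 h42 (Or.inl hz1')
        rw [e1, e2]
        calc gD D x1 z * gD D x2 z
            ≤ (C * p1 * bb z) * (C * p2 * bb z) :=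
              mul_le_mul b1 b2 (hc.nn _ _) (by positivity)
          _ = C * C * (p1 * p2) * (bb z * bb z) := by ring
          _ ≤ C * C * (p1 * p2) * (6561 * w4 z) := by gcongr
          _ = C * C * (p1 * p2 * (6561 * w4 z)) := by ring
          _ ≤ 8 ^ 9 * (C * C) * (p1 * p2 * (6561 * w4 z)) := by
              have t2 : 0 ≤ p1 * p2 * (6561 * w4 z) := by positivity
              have t4 : C * C ≤ 8 ^ 9 * (C * C) := by nlinarith
              exact mul_le_mul_of_nonneg_right t4 t2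
          _ = _ := by ring
  refine hmain.trans ?_
  have hval : ∫ z in D, 8 ^ 9 * C * C * (p2 * A1 z + p1 * A2 z + p1 * p2 * (6561 * w4 z)) =
      8 ^ 9 * C * C * (p2 * (∫ z in D, A1 z) + p1 * (∫ z in D, A2 z) +
        p1 * p2 * (6561 * ∫ z in D, w4 z)) := by
    have hl := (lin4 (D := D) hI1 hI2 w4_int.integrableOn w4_int.integrableOn (8 ^ 9 * C * C) p2 p1
      (p1 * p2 * 6561) 0).2
    simp only [zero_mul, add_zero] at hl
    simp only [← mul_assoc (p1 * p2) 6561]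
    exact hl
  rw [hval]
  have q1 : ‖x1‖ ^ (2 - mp 0) = ‖x1‖ ^ 2 * p1 := by
    rw [hp1, show (2 : ℝ) - mp 0 = 2 + (-mp 0) by ring, Real.rpow_add (by linarith)]
    norm_cast
  have q2 : ‖x2‖ ^ (2 - mp 1) = ‖x2‖ ^ 2 * p2 := by
    rw [hp2, show (2 : ℝ) - mp 1 = 2 + (-mp 1) by ring, Real.rpow_add (by linarith)]
    norm_cast
  rw [q1] at hS1' ⊢
  rw [q2] at hS2' ⊢
  have i1 := hI1'.trans hS1'
  have i2 := hI2'.trans hS2'
  have i3 := w4_set D
  have hC0 : 0 ≤ C := by linarith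
  have r1 : (1 : ℝ) ≤ ‖x1‖ ^ 2 := by nlinarith
  calc 8 ^ 9 * C * C * (p2 * (∫ z in D, A1 z) + p1 * (∫ z in D, A2 z) +
        p1 * p2 * (6561 * ∫ z in D, w4 z))
      ≤ 8 ^ 9 * C * C * (p2 * (K * (‖x1‖ ^ 2 * p1)) + p1 * (K * (‖x2‖ ^ 2 * p2)) +
        p1 * p2 * (6561 * J)) := by gcongr
    _ ≤ 8 ^ 9 * C * C * ((K + 6561 * J + 1) * (‖x1‖ ^ 2 * p1 * p2 + p1 * (‖x2‖ ^ 2 * p2))) := by
        have hpp : 0 < p1 * p2 := by positivity
        have : p2 * (K * (‖x1‖ ^ 2 * p1)) + p1 * (K * (‖x2‖ ^ 2 * p2)) + p1 * p2 * (6561 * J) ≤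
            (K + 6561 * J + 1) * (‖x1‖ ^ 2 * p1 * p2 + p1 * (‖x2‖ ^ 2 * p2)) := by
          have s1 : p1 * p2 * (6561 * J) ≤ (6561 * J) * (‖x1‖ ^ 2 * p1 * p2) := by
            have : (6561 * J) * (1 * (p1 * p2)) ≤ (6561 * J) * (‖x1‖ ^ 2 * (p1 * p2)) := by gcongr
            linarith
          have s2 : 0 ≤ (6561 * J) * (p1 * (‖x2‖ ^ 2 * p2)) := by positivity
          have s3 : 0 ≤ ‖x1‖ ^ 2 * p1 * p2 + p1 * (‖x2‖ ^ 2 * p2) := by positivity
          nlinarith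
        gcongr
    _ = _ := by ring

theorem mp_le_mm (i : Fin 2) : mp i ≤ (mm i : ℝ) := by
  unfold mp
  linarith

theorem mm_le (i : Fin 2) : mm i ≤ 9 := by
  fin_cases i <;> norm_num [mm]

theorem arith6 {a b j E X Y Z : ℝ} (ha : 0 ≤ a) (hb : 0 ≤ b) (hj : 0 ≤ j) (hE : 0 ≤ E)
    (hX : 0 ≤ X) (hY : 0 ≤ Y) (hZ : Z ≤ j * Y) :
    a * E + b * X + b * Y + Z ≤ (a + b + j) * (E + Y + X) := by
  have h1 := mul_nonneg ha hX
  have h2 := mul_nonneg ha hY
  have h3 := mul_nonneg hb hE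
  have h4 := mul_nonneg hj hE
  have h5 := mul_nonneg hj hX
  linarith

theorem st_E6 (hu1 : ST_U1) (hu2 : ST_U2) (hs0 : ST_SEC0) (hs2 : ST_S2) (hs6 : ST_S6)
    (hgeo : ST_GEO) (hgf : ST_GF2) (ht2 : ST_T2) (htm : ST_TM) : ST_E6 := by
  obtain ⟨C, hC, hctx⟩ := exists_ctx hu1 hu2 hs0 hgeo hgf ht2
  obtain ⟨⟨K, hK, hS⟩, -⟩ := hs2
  obtain ⟨K6, hK6, hS6⟩ := hs6
  set J : ℝ := ∫ z, w4 z with hJ
  have hJ0 : 0 ≤ J := integral_nonneg w4_nonneg
  refine ⟨8 ^ 9 * C * C * (K6 + K + 6561 * J), by positivity, ?_⟩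
  intro Rv R hsub i x hx y hy ha1 ha2 h42 hyx
  have h41 : 4 ≤ ‖x‖ := h42.trans hyx
  obtain ⟨hDD, hle⟩ := transfer htm hgeo hsub
  refine (hle x hx y hy).trans ?_
  have hc := hctx Rv hsub.1
  have hx' := hDD hx
  have hy' := hDD hy
  set D := Ddom (R0 Rv) with hD
  set p1 : ℝ := ‖x‖ ^ (-mp i) with hp1
  set p2 : ℝ := ‖y‖ ^ (-mp i) with hp2
  have hp1p : 0 < p1 := Real.rpow_pos_of_pos (by linarith) _
  have hp2p : 0 < p2 := Real.rpow_pos_of_pos (by linarith) _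
  obtain ⟨hS1, hS1'⟩ := hS i x ha1
  obtain ⟨hS2, hS2'⟩ := hS i y ha2
  obtain ⟨hS3, hS3'⟩ := hS6 i x ha1 y ha2 hyx
  have hnn1 : ∀ z ∈ Arm i, 0 ≤ GA i x z * ‖z‖ ^ (-mp i) := fun z hz =>
    mul_nonneg (hs0.2.2.1 i x ha1 z hz).1 (by positivity)
  have hnn2 : ∀ z ∈ Arm i, 0 ≤ GA i y z * ‖z‖ ^ (-mp i) := fun z hz =>
    mul_nonneg (hs0.2.2.1 i y ha2 z hz).1 (by positivity)
  have hnn3 : ∀ z ∈ Arm i, 0 ≤ GA i x z * GA i z y := fun z hz =>
    mul_nonneg (hs0.2.2.1 i x ha1 z hz).1 (hs0.2.2.1 i z hz y ha2).1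
  obtain ⟨hI1, hI1'⟩ := ind_int (meas_arm i) hS1 hnn1 D
  obtain ⟨hI2, hI2'⟩ := ind_int (meas_arm i) hS2 hnn2 D
  obtain ⟨hI3, hI3'⟩ := ind_int (meas_arm i) hS3 hnn3 D
  set A1 := (Arm i).indicator (fun z => GA i x z * ‖z‖ ^ (-mp i)) with hA1
  set A2 := (Arm i).indicator (fun z => GA i y z * ‖z‖ ^ (-mp i)) with hA2
  set A3 := (Arm i).indicator (fun z => GA i x z * GA i z y) with hA3
  obtain ⟨hB, hBv⟩ := lin4 (D := D) hI3 hI1 hI2 w4_int.integrableOn (8 ^ 9 * (C * C)) 1 p2 p1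
    (p1 * p2 * 6561)
  have hC0 : 0 ≤ C := by linarith
  have hCC : C ≤ C * C := by nlinarith
  have h1C : 1 ≤ C * C := by nlinarith
  have hmain : Gam D x y ≤
      ∫ z in D, 8 ^ 9 * (C * C) * (1 * A3 z + p2 * A1 z + p1 * A2 z + p1 * p2 * 6561 * w4 z) := by
    refine mono2 hc.md x y (hc.int x hx' y hy') hB ?_
    intro z hz hz1 hz2
    have hb0 := bb_nonneg z
    have hbs := bb_sq (hc.cov z hz)
    have hw := w4_nonneg z
    have hg2 : gD D z y = gD D y z := hc.symm z hz y hy'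
    rw [hg2]
    by_cases hzi : z ∈ Arm i
    · have e1 : A1 z = GA i x z * ‖z‖ ^ (-mp i) := indicator_of_mem hzi _
      have e2 : A2 z = GA i y z * ‖z‖ ^ (-mp i) := indicator_of_mem hzi _
      have e3 : A3 z = GA i x z * GA i y z := by
        rw [(hs0.2.2.1 i y ha2 z hzi).2]
        exact indicator_of_mem hzi _
      have b1 := hc.u2 i x hx' z hz ha1 hzi (Ne.symm hz1) h41
      have b2 := hc.u2 i y hy' z hz ha2 hzi (Ne.symm hz2) h42
      have hga1 := (hs0.2.2.1 i x ha1 z hzi).1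
      have hga2 := (hs0.2.2.1 i y ha2 z hzi).1
      have b3 := bb_le_arm hzi
      rw [e1, e2, e3]
      calc gD D x z * gD D y z
          ≤ (GA i x z + C * p1 * bb z) * (GA i y z + C * p2 * bb z) :=
            mul_le_mul b1 b2 (hc.nn _ _) (by positivity)
        _ = GA i x z * GA i y z + C * p2 * (GA i x z * bb z) + C * p1 * (GA i y z * bb z) +
              C * C * (p1 * p2) * (bb z * bb z) := by ring
        _ ≤ GA i x z * GA i y z + C * p2 * (GA i x z * (8 ^ 9 * ‖z‖ ^ (-mp i))) +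
              C * p1 * (GA i y z * (8 ^ 9 * ‖z‖ ^ (-mp i))) +
              C * C * (p1 * p2) * (6561 * w4 z) := by
            gcongr
        _ = 1 * (GA i x z * GA i y z) + 8 ^ 9 * C * (p2 * (GA i x z * ‖z‖ ^ (-mp i))) +
              8 ^ 9 * C * (p1 * (GA i y z * ‖z‖ ^ (-mp i))) +
              C * C * (p1 * p2 * (6561 * w4 z)) := by ring
        _ ≤ 8 ^ 9 * (C * C) * (GA i x z * GA i y z) +
              8 ^ 9 * (C * C) * (p2 * (GA i x z * ‖z‖ ^ (-mp i))) +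
              8 ^ 9 * (C * C) * (p1 * (GA i y z * ‖z‖ ^ (-mp i))) +
              8 ^ 9 * (C * C) * (p1 * p2 * (6561 * w4 z)) := by
            have t0 : 0 ≤ GA i x z * GA i y z := by positivity
            have t1 : 0 ≤ p2 * (GA i x z * ‖z‖ ^ (-mp i)) := by positivity
            have t1' : 0 ≤ p1 * (GA i y z * ‖z‖ ^ (-mp i)) := by positivity
            have t2 : 0 ≤ p1 * p2 * (6561 * w4 z) := by positivity
            have t3 : 8 ^ 9 * C ≤ 8 ^ 9 * (C * C) := by linarith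
            have t4 : C * C ≤ 8 ^ 9 * (C * C) := by linarith
            have t5 : 1 ≤ 8 ^ 9 * (C * C) := by linarith
            exact add_le_add (add_le_add (add_le_add (mul_le_mul_of_nonneg_right t5 t0)
              (mul_le_mul_of_nonneg_right t3 t1)) (mul_le_mul_of_nonneg_right t3 t1'))
              (mul_le_mul_of_nonneg_right t4 t2)
        _ = _ := by ring
    · have e1 : A1 z = 0 := indicator_of_notMem hzi _
      have e2 : A2 z = 0 := indicator_of_notMem hzi _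
      have e3 : A3 z = 0 := indicator_of_notMem hzi _
      have b1 := hc.u1 i x hx' z hz ha1 h41 (Or.inl hzi)
      have b2 := hc.u1 i y hy' z hz ha2 h42 (Or.inl hzi)
      rw [e1, e2, e3]
      calc gD D x z * gD D y z
          ≤ (C * p1 * bb z) * (C * p2 * bb z) :=
            mul_le_mul b1 b2 (hc.nn _ _) (by positivity)
        _ = C * C * (p1 * p2) * (bb z * bb z) := by ring
        _ ≤ C * C * (p1 * p2) * (6561 * w4 z) := by gcongr
        _ = C * C * (p1 * p2 * (6561 * w4 z)) := by ring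
        _ ≤ 8 ^ 9 * (C * C) * (p1 * p2 * (6561 * w4 z)) := by
            have t2 : 0 ≤ p1 * p2 * (6561 * w4 z) := by positivity
            have t4 : C * C ≤ 8 ^ 9 * (C * C) := by linarith
            exact mul_le_mul_of_nonneg_right t4 t2
        _ = _ := by ring
  refine hmain.trans ?_
  rw [hBv]
  have q1 : ‖x‖ ^ (2 - mp i) = ‖x‖ ^ 2 * p1 := by
    rw [hp1, show (2 : ℝ) - mp i = 2 + (-mp i) by ring, Real.rpow_add (by linarith)]
    norm_cast
  have q2 : ‖y‖ ^ (2 - mp i) = ‖y‖ ^ 2 * p2 := by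
    rw [hp2, show (2 : ℝ) - mp i = 2 + (-mp i) by ring, Real.rpow_add (by linarith)]
    norm_cast
  rw [q1] at hS1' ⊢
  rw [q2] at hS2' ⊢
  have i1 := hI1'.trans hS1'
  have i2 := hI2'.trans hS2'
  have i4 := hI3'.trans hS3'
  have i3 := w4_set D
  set E := ‖x‖ ^ 2 * (‖y‖ / ‖x‖) ^ mm i with hE
  clear hmain hBv hB
  have hE0 : 0 ≤ E := by positivity
  have r1 : (1 : ℝ) ≤ ‖y‖ ^ 2 := by nlinarith
  have i4' : ∫ z in D, A3 z ≤ K6 * E := by
    rw [hE]
    linarith [i4]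
  calc 8 ^ 9 * (C * C) * (1 * (∫ z in D, A3 z) + p2 * (∫ z in D, A1 z) + p1 * (∫ z in D, A2 z) +
        p1 * p2 * 6561 * ∫ z in D, w4 z)
      ≤ 8 ^ 9 * (C * C) * (1 * (K6 * E) + p2 * (K * (‖x‖ ^ 2 * p1)) + p1 * (K * (‖y‖ ^ 2 * p2)) +
        p1 * p2 * 6561 * J) := by gcongr
    _ ≤ 8 ^ 9 * (C * C) * ((K6 + K + 6561 * J) *
          (E + p1 * (‖y‖ ^ 2 * p2) + p2 * (‖x‖ ^ 2 * p1))) := by
        have hpp : 0 < p1 * p2 := by positivity
        have s1 : p1 * p2 * 6561 * J ≤ (6561 * J) * (p1 * (‖y‖ ^ 2 * p2)) := by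
          have : (6561 * J) * (1 * (p1 * p2)) ≤ (6561 * J) * (‖y‖ ^ 2 * (p1 * p2)) := by gcongr
          linarith
        have s2 : 0 ≤ p2 * (‖x‖ ^ 2 * p1) := by positivity
        have s3 : 0 ≤ p1 * (‖y‖ ^ 2 * p2) := by positivity
        have := arith6 hK6.le hK.le (mul_nonneg (by norm_num : (0 : ℝ) ≤ 6561) hJ0) hE0 s2 s3 s1
        refine mul_le_mul_of_nonneg_left ?_ (by positivity)
        linarith
    _ = _ := by ring

theorem st_E5 (hu1 : ST_U1) (hu2 : ST_U2) (hu3 : ST_U3) (hs0 : ST_SEC0) (hs2 : ST_S2)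
    (hgeo : ST_GEO) (hgf : ST_GF2) (ht1 : ST_T1) (ht2 : ST_T2) (htm : ST_TM) : ST_E5 := by
  obtain ⟨C, hC, hctx⟩ := exists_ctx hu1 hu2 hs0 hgeo hgf ht2
  obtain ⟨⟨K, hK, hS⟩, -⟩ := hs2
  obtain ⟨C3, hC3, hU3⟩ := hu3
  obtain ⟨T, hT, hT1⟩ := ht1
  obtain ⟨K0, hK0, hGAb⟩ := hs0.2.2.2.2.2.2
  set J : ℝ := ∫ z, w4 z with hJ
  have hJ0 : 0 ≤ J := integral_nonneg w4_nonneg
  set f : ℂ → ℝ := (Metric.ball (0 : ℂ) 8).indicator (fun _ => (1 : ℝ)) with hf
  have hfm : Measurable f := measurable_const.indicator measurableSet_ball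
  have hf4 : (fun y => f y ^ 4) = f := by
    funext y
    by_cases hy : y ∈ Metric.ball (0 : ℂ) 8
    · rw [hf, indicator_of_mem hy]; norm_num
    · rw [hf, indicator_of_notMem hy]; norm_num
  have hfi : Integrable f := (integrable_indicator_iff measurableSet_ball).2
    (integrableOn_const (measure_ball_lt_top).ne)
  have hf0 : ∀ z, 0 ≤ f z := fun z => indicator_nonneg (fun _ _ => zero_le_one) z
  set V : ℝ := (∫ z, f z) ^ ((1 : ℝ) / 4) with hV
  have hV0 : 0 ≤ V := Real.rpow_nonneg (integral_nonneg hf0) _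
  set C5 : ℝ := C + 8 ^ 9 * K0 with hC5
  have hC5p : 0 < C5 := by positivity
  set M : ℝ := C5 + C3 + C3 * C * 6561 with hM
  have hM0 : 0 < M := by positivity
  refine ⟨M * (T * V + 2 * K + 2 * J), by positivity, ?_⟩
  intro Rv R hsub i y hy x hx hy4 hxa h16
  obtain ⟨hDD, hle⟩ := transfer htm hgeo hsub
  refine (hle y hy x hx).trans ?_
  have hc := hctx Rv hsub.1
  have hx' := hDD hx
  have hy' := hDD hy
  have hR1 : ∀ i, 1 ≤ Rv i := fun i => by linarith [hsub.1 i]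
  have hP := (hgeo.2 Rv hR1).1
  set D := Ddom (R0 Rv) with hD
  set p1 : ℝ := ‖x‖ ^ (-mp i) with hp1
  have hp1p : 0 < p1 := Real.rpow_pos_of_pos (by linarith) _
  have hpsi : 0 ≤ psi y := by
    have := hy'.2
    unfold psi
    have h1 : 0 < y.re := this.1
    have h2 : 0 < y.im := this.2
    positivity
  set P : ℝ := ‖y‖ * psi y with hPd
  have hP0 : 0 ≤ P := by positivity
  obtain ⟨hS1, hS1'⟩ := hS i x hxa
  have hnn1 : ∀ z ∈ Arm i, 0 ≤ GA i x z * ‖z‖ ^ (-mp i) := fun z hz =>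
    mul_nonneg (hs0.2.2.1 i x hxa z hz).1 (by positivity)
  obtain ⟨hI1, hI1'⟩ := ind_int (meas_arm i) hS1 hnn1 D
  set A1 := (Arm i).indicator (fun z => GA i x z * ‖z‖ ^ (-mp i)) with hA1
  obtain ⟨hTi, hTb⟩ := hT1 _ hP f hfm.aestronglyMeasurable
    (by rw [hf4]; exact hfi.integrableOn) y hy'
  rw [hf4] at hTb
  obtain ⟨hB, hBv⟩ := lin4 (D := D) hTi hI1 w4_int.integrableOn w4_int.integrableOn M p1 P
    (P * p1) 0
  have hC0 : 0 ≤ C := by linarith
  have hmain : Gam D y x ≤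
      ∫ z in D, M * (p1 * (gD D y z * f z) + P * A1 z + P * p1 * w4 z + 0 * w4 z) := by
    refine mono2 hc.md x y (hc.int y hy' x hx') hB ?_
    intro z hz hz1 hz2
    have hb0 := bb_nonneg z
    have hbs := bb_sq (hc.cov z hz)
    have hw := w4_nonneg z
    have hg2 : gD D z x = gD D x z := hc.symm z hz x hx'
    have hA1z : 0 ≤ A1 z := indicator_nonneg hnn1 z
    rw [hg2]
    rcases lt_or_ge ‖z‖ 8 with h8 | h8
    · have hfz : f z = 1 := indicator_of_mem (by simpa using h8) _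
      have hbz := bb_small h8
      have key : gD D x z ≤ C5 * p1 := by
        by_cases hzi : z ∈ Arm i
        · have b1 := hc.u2 i x hx' z hz hxa hzi (Ne.symm hz1) (by linarith)
          rw [hbz, mul_one] at b1
          have b2 := hGAb i x hxa z hzi (by linarith)
          have b3 : (‖z‖ / ‖x‖) ^ mm i ≤ 8 ^ 9 * p1 := by
            rw [div_pow, div_le_iff₀ (by positivity)]
            have c1 : ‖z‖ ^ mm i ≤ 8 ^ 9 :=
              calc ‖z‖ ^ mm i ≤ (8 : ℝ) ^ mm i := pow_le_pow_left₀ (norm_nonneg _) h8.le _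
                _ ≤ 8 ^ 9 := pow_le_pow_right₀ (by norm_num) (mm_le i)
            have c2 : 1 ≤ p1 * ‖x‖ ^ mm i := by
              have : p1 * ‖x‖ ^ mm i = ‖x‖ ^ ((mm i : ℝ) - mp i) := by
                rw [hp1, ← Real.rpow_natCast, ← Real.rpow_add (by linarith)]
                congr 1
                ring
              rw [this]
              exact Real.one_le_rpow (by linarith) (by linarith [mp_le_mm i])
            calc ‖z‖ ^ mm i ≤ 8 ^ 9 * 1 := by linarith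
              _ ≤ 8 ^ 9 * (p1 * ‖x‖ ^ mm i) := by gcongr
              _ = _ := by ring
          calc gD D x z ≤ GA i x z + C * p1 := b1
            _ ≤ K0 * (8 ^ 9 * p1) + C * p1 := by
                have := b2.trans (mul_le_mul_of_nonneg_left b3 hK0.le)
                linarith
            _ = C5 * p1 := by rw [hC5]; ring
        · have b1 := hc.u1 i x hx' z hz hxa (by linarith) (Or.inl hzi)
          rw [hbz, mul_one] at b1
          have : 0 ≤ 8 ^ 9 * K0 * p1 := by positivity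
          rw [hC5]
          linarith
      have hg0 := hc.nn y z
      rw [hfz, mul_one, zero_mul, add_zero]
      calc gD D y z * gD D x z ≤ gD D y z * (C5 * p1) := mul_le_mul_of_nonneg_left key hg0
        _ = C5 * (p1 * gD D y z) := by ring
        _ ≤ M * (p1 * gD D y z) := by
            have : 0 ≤ p1 * gD D y z := by positivity
            refine mul_le_mul_of_nonneg_right ?_ this
            rw [hM]
            have : 0 ≤ C3 * C * 6561 := by positivity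
            linarith
        _ ≤ M * (p1 * gD D y z + P * A1 z + P * p1 * w4 z) := by
            refine mul_le_mul_of_nonneg_left ?_ hM0.le
            have : 0 ≤ P * A1 z := by positivity
            have : 0 ≤ P * p1 * w4 z := by positivity
            linarith
    · obtain ⟨j, hj⟩ : ∃ j, z ∈ Arm j := by
        rcases hc.cov z hz with h | h | h
        · exact absurd h (not_lt.2 h8)
        · exact ⟨0, h⟩
        · exact ⟨1, h⟩
      have hbz := bb_arm hj h8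
      have hG1 := hU3 Rv hsub.1 j y hy' z hz hy4 hj h8
      rw [← hbz] at hG1
      have hG1' : gD D y z ≤ C3 * P * bb z := by
        rw [hPd]
        linarith
      have hfz0 : 0 ≤ p1 * (gD D y z * f z) :=
        mul_nonneg hp1p.le (mul_nonneg (hc.nn _ _) (hf0 _))
      rw [zero_mul, add_zero]
      have t6 : C3 * C * 6561 ≤ M := by rw [hM]; linarith
      have t7 : C3 ≤ M := by
        rw [hM]
        have : 0 ≤ C3 * C * 6561 := by positivity
        linarith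
      have tw : 0 ≤ P * p1 * w4 z := by positivity
      have tA : 0 ≤ P * A1 z := by positivity
      by_cases hji : j = i
      · subst hji
        have b1 := hc.u2 j x hx' z hz hxa hj (Ne.symm hz1) (by linarith)
        have e1 : A1 z = GA j x z * bb z := by
          rw [hbz]
          exact indicator_of_mem hj _
        have hga1 := (hs0.2.2.1 j x hxa z hj).1
        calc gD D y z * gD D x z ≤ (C3 * P * bb z) * (GA j x z + C * p1 * bb z) :=
              mul_le_mul hG1' b1 (hc.nn _ _) (by positivity)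
          _ = C3 * (P * (GA j x z * bb z)) + C3 * C * (P * p1) * (bb z * bb z) := by ring
          _ ≤ C3 * (P * (GA j x z * bb z)) + C3 * C * (P * p1) * (6561 * w4 z) := by gcongr
          _ = C3 * (P * A1 z) + C3 * C * 6561 * (P * p1 * w4 z) := by rw [e1]; ring
          _ ≤ M * (P * A1 z) + M * (P * p1 * w4 z) := by
              exact add_le_add (mul_le_mul_of_nonneg_right t7 tA)
                (mul_le_mul_of_nonneg_right t6 tw)
          _ ≤ M * (p1 * (gD D y z * f z) + P * A1 z + P * p1 * w4 z) := by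
              have := mul_nonneg hM0.le hfz0
              linarith
      · have b1 := hc.u1 i x hx' z hz hxa (by linarith)
          (Or.inl fun h => hji (arm_inj hj h))
        calc gD D y z * gD D x z ≤ (C3 * P * bb z) * (C * p1 * bb z) :=
              mul_le_mul hG1' b1 (hc.nn _ _) (by positivity)
          _ = C3 * C * (P * p1) * (bb z * bb z) := by ring
          _ ≤ C3 * C * (P * p1) * (6561 * w4 z) := by gcongr
          _ = C3 * C * 6561 * (P * p1 * w4 z) := by ring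
          _ ≤ M * (P * p1 * w4 z) := mul_le_mul_of_nonneg_right t6 tw
          _ ≤ M * (p1 * (gD D y z * f z) + P * A1 z + P * p1 * w4 z) := by
              have h1 := mul_nonneg hM0.le hfz0
              have h2 := mul_nonneg hM0.le tA
              linarith
  refine hmain.trans ?_
  rw [hBv, zero_mul, add_zero]
  have q1 : ‖x‖ ^ (2 - mp i) = ‖x‖ ^ 2 * p1 := by
    rw [hp1, show (2 : ℝ) - mp i = 2 + (-mp i) by ring, Real.rpow_add (by linarith)]
    norm_cast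
  rw [q1] at hS1' ⊢
  have i1 := hI1'.trans hS1'
  have i3 := w4_set D
  set s : ℝ := ‖y‖ ^ ((1 : ℝ) / 2) with hs
  have hs0' : 0 ≤ s := by positivity
  have hss : s * s = ‖y‖ := by
    rw [hs, ← Real.sqrt_eq_rpow]
    exact Real.mul_self_sqrt (norm_nonneg y)
  have hs2 : s ≤ 2 := by nlinarith
  have i2 : ∫ z in D, gD D y z * f z ≤ T * psi y * s * V := by
    have h1 := (le_abs_self _).trans hTb
    have h2 : (∫ z in D, f z) ^ ((1 : ℝ) / 4) ≤ V := by
      refine Real.rpow_le_rpow (setIntegral_nonneg hc.md fun z _ => hf0 z) ?_ (by norm_num)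
      exact setIntegral_le_integral hfi (ae_of_all _ hf0)
    calc ∫ z in D, gD D y z * f z ≤ T * psi y * s * (∫ z in D, f z) ^ ((1 : ℝ) / 4) := h1
      _ ≤ T * psi y * s * V := by gcongr
  have r1 : (1 : ℝ) ≤ ‖x‖ ^ 2 := by nlinarith
  have hPs : P ≤ 2 * (psi y * s) := by
    rw [hPd, ← hss]
    have : s * (psi y * s) ≤ 2 * (psi y * s) := by gcongr
    linarith
  have hps : 0 ≤ psi y * s := by positivity
  calc M * (p1 * (∫ z in D, gD D y z * f z) + P * (∫ z in D, A1 z) + P * p1 * ∫ z in D, w4 z)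
      ≤ M * (p1 * (T * psi y * s * V) + (2 * (psi y * s)) * (K * (‖x‖ ^ 2 * p1)) +
          (2 * (psi y * s)) * p1 * J) := by
        have hi0 : 0 ≤ ∫ z in D, A1 z := setIntegral_nonneg hc.md fun z _ =>
          indicator_nonneg hnn1 z
        have hi1 : 0 ≤ ∫ z in D, w4 z := setIntegral_nonneg hc.md fun z _ => w4_nonneg z
        gcongr
    _ ≤ M * ((T * V + 2 * K + 2 * J) * (psi y * s * (‖x‖ ^ 2 * p1))) := by
        have hq : p1 ≤ ‖x‖ ^ 2 * p1 := le_mul_of_one_le_left hp1p.le r1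
        have s1 : p1 * (T * psi y * s * V) ≤ T * V * (psi y * s * (‖x‖ ^ 2 * p1)) := by
          calc p1 * (T * psi y * s * V) = T * V * (psi y * s * p1) := by ring
            _ ≤ T * V * (psi y * s * (‖x‖ ^ 2 * p1)) := by gcongr
        have s2 : (2 * (psi y * s)) * p1 * J ≤ 2 * J * (psi y * s * (‖x‖ ^ 2 * p1)) := by
          calc (2 * (psi y * s)) * p1 * J = 2 * J * (psi y * s * p1) := by ring
            _ ≤ 2 * J * (psi y * s * (‖x‖ ^ 2 * p1)) := by gcongr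
        refine mul_le_mul_of_nonneg_left ?_ hM0.le
        linarith
    _ = _ := by ring

end E456

end LEP
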